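import Mathlib
import Pool.Agent.W889.SR.Stm

set_option autoImplicit false

namespace Pool.Agent.W989.SR.INV

open Pool.Agent.W889.SR

theorem cb_imp {T : Type} (r : T → T → Prop) {s : ℕ → ℕ → Prop} (g : s ≃r s) (e : T)
    (β : Ordinal.{0}) {n : ℕ} (a : Fin n → T) (v : ℕ) (z : Fin n → ℕ)
    (h : CB r e β a s v z) : CB r e β a s (g v) (g ∘ z) := by
  unfold CB at h ⊢
  have h1 : BF β s {y | s v y} (fun o : Option (Fin n) => o.elim v z) s {y | s (g v) y}
      (g.toEquiv ∘ (fun o : Option (Fin n) => o.elim v z)) :=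
    BF.of_iso _ g.toEquiv (fun x y => g.map_rel_iff.symm) (fun x => g.map_rel_iff.symm)
  have e1 : (g.toEquiv ∘ (fun o : Option (Fin n) => o.elim v z)) =
      (fun o : Option (Fin n) => o.elim (g v) (g ∘ z)) := by
    funext o
    cases o <;> rfl
  rw [e1] at h1
  exact BF.trans h h1

theorem cb_iff {T : Type} (r : T → T → Prop) {s : ℕ → ℕ → Prop} (g : s ≃r s) (e : T)
    (β : Ordinal.{0}) {n : ℕ} (a : Fin n → T) (v : ℕ) (z : Fin n → ℕ) :
    CB r e β a s v z ↔ CB r e β a s (g v) (g ∘ z) := by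
  constructor
  · exact cb_imp r g e β a v z
  · intro h
    have := cb_imp r g.symm e β a _ _ h
    have e1 : g.symm ∘ (g ∘ z) = z := by
      funext i
      simp
    rw [e1] at this
    simpa using this

theorem sat_iff {T : Type} {α : Ordinal.{0}} (r : T → T → Prop) {s : ℕ → ℕ → Prop}
    (g : s ≃r s) (v : ℕ) (q : Q (SB T α)) : ∀ ρ : ℕ → ℕ,
    q.sat (Bs r) s v ρ ↔ q.sat (Bs r) s (g v) (g ∘ ρ) := by
  induction q with
  | base b =>
    intro ρ
    cases b with
    | le i j => exact g.map_rel_iff.symm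
    | eq i j => exact g.injective.eq_iff.symm
    | cb n e a β u => exact cb_iff r g e β.1 a v (ρ ∘ u)
  | neg q ih => exact fun ρ => not_congr (ih ρ)
  | and q q' ih ih' => exact fun ρ => and_congr (ih ρ) (ih' ρ)
  | ex i q ih =>
    intro ρ
    simp only [Q.sat]
    constructor
    · rintro ⟨w, hw, h⟩
      refine ⟨g w, g.map_rel_iff.2 hw, ?_⟩
      rw [← Function.comp_update]
      exact (ih _).1 h
    · rintro ⟨w, hw, h⟩
      refine ⟨g.symm w, ?_, ?_⟩
      · rw [← g.map_rel_iff]
        simpa using hw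
      · rw [ih, Function.comp_update]
        simpa using h

theorem inv : Pool.Agent.W889.SR.INV := by
  intro T α r s g k v c q
  rw [sat_iff r g v q]
  have e : g ∘ ext v c = ext (g v) (fun i => g (c i)) := by
    funext i
    simp only [Function.comp_apply, ext]
    split_ifs <;> rfl
  rw [e]

end Pool.Agent.W989.SR.INV
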