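import Mathlib
import Pool.Agent.W889.SR.Stm

set_option autoImplicit false

namespace Pool.Agent.W989.SR.QB

open Pool.Agent.W889.SR

/-! ### a back-and-forth lemma -/

section BackForth

variable {X Y : Type} (P : List (X × Y) → Prop)

theorem step_ex (hf : ∀ l, P l → ∀ x, ∃ y, P ((x, y) :: l))
    (hb : ∀ l, P l → ∀ y, ∃ x, P ((x, y) :: l)) (l : {l // P l}) (ox : Option X) (oy : Option Y) :
    ∃ l' : {l // P l}, (∀ p ∈ l.1, p ∈ l'.1) ∧ (∀ x, ox = some x → ∃ y, (x, y) ∈ l'.1) ∧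
      ∀ y, oy = some y → ∃ x, (x, y) ∈ l'.1 := by
  obtain ⟨l, hl⟩ := l
  have h1 : ∃ l' : List (X × Y), P l' ∧ (∀ p ∈ l, p ∈ l') ∧
      (∀ x, ox = some x → ∃ y, (x, y) ∈ l') := by
    rcases ox with _ | x
    · exact ⟨l, hl, fun p hp => hp, fun x hx => by simp at hx⟩
    · obtain ⟨y, hy⟩ := hf l hl x
      refine ⟨(x, y) :: l, hy, fun p hp => List.mem_cons_of_mem _ hp, fun x' hx' => ?_⟩
      obtain rfl := Option.some.inj hx'
      exact ⟨y, List.mem_cons_self⟩
  obtain ⟨l1, hl1, h2, h3⟩ := h1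
  rcases oy with _ | y
  · exact ⟨⟨l1, hl1⟩, h2, h3, fun y hy => by simp at hy⟩
  · obtain ⟨x, hx⟩ := hb l1 hl1 y
    refine ⟨⟨(x, y) :: l1, hx⟩, fun p hp => List.mem_cons_of_mem _ (h2 p hp), fun x' hx' => ?_,
      fun y' hy' => ?_⟩
    · obtain ⟨y', hy'⟩ := h3 x' hx'
      exact ⟨y', List.mem_cons_of_mem _ hy'⟩
    · obtain rfl := Option.some.inj hy'
      exact ⟨x, List.mem_cons_self⟩

theorem backForth [Countable X] [Countable Y] (r : X → X → Prop) (s : Y → Y → Prop)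
    (h0 : P []) (hf : ∀ l, P l → ∀ x, ∃ y, P ((x, y) :: l))
    (hb : ∀ l, P l → ∀ y, ∃ x, P ((x, y) :: l))
    (he : ∀ l, P l → ∀ p ∈ l, ∀ q ∈ l, (p.1 = q.1 ↔ p.2 = q.2))
    (hr : ∀ l, P l → ∀ p ∈ l, ∀ q ∈ l, (r p.1 q.1 ↔ s p.2 q.2)) :
    ∃ g : X ≃ Y, ∀ x y, r x y ↔ s (g x) (g y) := by
  classical
  let _ : Encodable X := Encodable.ofCountable X
  let _ : Encodable Y := Encodable.ofCountable Y
  choose st h1 h2 h3 using step_ex P hf hb
  let L : ℕ → {l // P l} := fun n => Nat.rec ⟨[], h0⟩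
    (fun n l => st l (Encodable.decode n) (Encodable.decode n)) n
  have hL : ∀ n, L (n + 1) = st (L n) (Encodable.decode n) (Encodable.decode n) := fun n => rfl
  have hmono : ∀ n m, n ≤ m → ∀ p ∈ (L n).1, p ∈ (L m).1 := by
    intro n m hnm
    induction m, hnm using Nat.le_induction with
    | base => exact fun p hp => hp
    | succ m _ ih =>
      intro p hp
      rw [hL]
      exact h1 _ _ _ p (ih p hp)
  have hX : ∀ x : X, ∃ y : Y, ∃ n, (x, y) ∈ (L n).1 := by
    intro x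
    obtain ⟨y, hy⟩ := h2 (L (Encodable.encode x)) (Encodable.decode (Encodable.encode x))
      (Encodable.decode (Encodable.encode x)) x (Encodable.encodek x)
    exact ⟨y, Encodable.encode x + 1, by rw [hL]; exact hy⟩
  have hY : ∀ y : Y, ∃ x : X, ∃ n, (x, y) ∈ (L n).1 := by
    intro y
    obtain ⟨x, hx⟩ := h3 (L (Encodable.encode y)) (Encodable.decode (Encodable.encode y))
      (Encodable.decode (Encodable.encode y)) y (Encodable.encodek y)
    exact ⟨x, Encodable.encode y + 1, by rw [hL]; exact hx⟩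
  choose g n hg using hX
  have common : ∀ p q : X × Y, ∀ n m, p ∈ (L n).1 → q ∈ (L m).1 →
      (p.1 = q.1 ↔ p.2 = q.2) ∧ (r p.1 q.1 ↔ s p.2 q.2) := by
    intro p q n m hp hq
    have hp' := hmono n (max n m) (le_max_left _ _) p hp
    have hq' := hmono m (max n m) (le_max_right _ _) q hq
    exact ⟨he _ (L (max n m)).2 p hp' q hq', hr _ (L (max n m)).2 p hp' q hq'⟩
  have hbij : Function.Bijective g := by
    constructor
    · intro x x' hxx
      exact (common _ _ _ _ (hg x) (hg x')).1.2 hxx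
    · intro y
      obtain ⟨x, m, hm⟩ := hY y
      exact ⟨x, (common _ _ _ _ (hg x) hm).1.1 rfl⟩
  exact ⟨Equiv.ofBijective g hbij, fun x y => (common _ _ _ _ (hg x) (hg y)).2⟩

end BackForth

variable {S : Type 1} {B : Itp S} {s : ℕ → ℕ → Prop}

theorem SameTp.symm {k : ℕ} {a : ℕ} {c : Fin k → ℕ} {b : ℕ} {d : Fin k → ℕ}
    (h : SameTp B s a c b d) : SameTp B s b d a c := fun q => (h q).symm

theorem SameTp.trans {k : ℕ} {a : ℕ} {c : Fin k → ℕ} {b : ℕ} {d : Fin k → ℕ} {a' : ℕ}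
    {c' : Fin k → ℕ} (h : SameTp B s a c b d) (h' : SameTp B s b d a' c') :
    SameTp B s a c a' c' := fun q => (h q).trans (h' q)

theorem tr (hQ : QA) (hB : BLaws B) (a b : ℕ) (ha : s a a) (hb : s b b)
    (h : SameTp B s (k := 0) a Fin.elim0 b Fin.elim0) (k : ℕ) (τ : Q S)
    (hc : ∃ c : Fin k → ℕ, (∀ i, s a (c i)) ∧ τ.sat B s a (ext a c)) :
    ∃ d : Fin k → ℕ, (∀ i, s b (d i)) ∧ τ.sat B s b (ext b d) := by
  obtain ⟨τ0, h0⟩ := hQ.proj S B hB 0 k Fin.elim0 τ
  obtain ⟨c, hc, hcτ⟩ := hc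
  have h1 := (h0 s a ha Fin.elim0 (fun i => i.elim0)).2 ⟨c, hc, hcτ, Subsingleton.elim _ _⟩
  have h2 := (h τ0).1 h1
  obtain ⟨d, hd, hdτ, -⟩ := (h0 s b hb Fin.elim0 (fun i => i.elim0)).1 h2
  exact ⟨d, hd, hdτ⟩

theorem iso (hQ : QA) (hB : BLaws B) (a b : ℕ) (ha : s a a) (hb : s b b)
    (h : SameTp B s (k := 0) a Fin.elim0 b Fin.elim0) (k : ℕ) (c d : Fin k → ℕ) (τ : Q S)
    (hd : ∀ i, s b (d i))
    (hi : ∀ z : Fin k → ℕ, (∀ i, s a (z i)) → τ.sat B s a (ext a z) → SameTp B s a z a c)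
    (hdτ : τ.sat B s b (ext b d)) :
    SameTp B s a c b d ∧ ∀ z : Fin k → ℕ, (∀ i, s b (z i)) → τ.sat B s b (ext b z) →
        SameTp B s b z b d := by
  have key : ∀ q : Q S, q.sat B s a (ext a c) → ∀ z : Fin k → ℕ, (∀ i, s b (z i)) →
      τ.sat B s b (ext b z) → q.sat B s b (ext b z) := by
    intro q hq z hz hzτ
    by_contra hn
    obtain ⟨y, hy, hyτ, hyq⟩ := tr hQ hB b a hb ha (SameTp.symm h) k (τ.and q.neg)
      ⟨z, hz, hzτ, hn⟩
    exact hyq ((hi y hy hyτ q).2 hq)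
  have key2 : ∀ z : Fin k → ℕ, (∀ i, s b (z i)) → τ.sat B s b (ext b z) →
      SameTp B s a c b z := by
    intro z hz hzτ q
    constructor
    · exact fun hq => key q hq z hz hzτ
    · intro hq
      by_contra hn
      exact key q.neg hn z hz hzτ hq
  exact ⟨key2 d hd hdτ, fun z hz hzτ => SameTp.trans (SameTp.symm (key2 z hz hzτ)) (key2 d hd hdτ)⟩

theorem sat_foldr (v : ℕ) (ρ : ℕ → ℕ) (χ : Q S) (L : List (Q S)) :
    (L.foldr Q.and χ).sat B s v ρ ↔ (∀ q ∈ L, q.sat B s v ρ) ∧ χ.sat B s v ρ := by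
  induction L with
  | nil => simp
  | cons q L ih =>
    simp only [List.foldr_cons, Q.sat, ih, List.mem_cons, forall_eq_or_imp]
    tauto

theorem reidx (hQ : QA) (hB : BLaws B) (k m : ℕ) (u : Fin m → Fin k) (χ : Q S) :
    ∃ χ' : Q S, ∀ (s : ℕ → ℕ → Prop) (v : ℕ), s v v → ∀ z : Fin k → ℕ, (∀ i, s v (z i)) →
      (χ'.sat B s v (ext v z) ↔ χ.sat B s v (ext v (z ∘ u))) := by
  choose eb heb using hB.eq
  obtain ⟨χ1, h1⟩ := hQ.ren S B hB χ (fun i => if i < m then i else i + k) (by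
    intro i j hij
    simp only at hij
    split_ifs at hij <;> omega)
  let L : List (Q S) := (List.finRange m).map (fun j => Q.base (eb j.1 (m + (u j).1)))
  obtain ⟨χ', h2⟩ := hQ.proj S B hB k (m + k) (Fin.natAdd m) (L.foldr Q.and χ1)
  have hext : ∀ (v : ℕ) (w : Fin (m + k) → ℕ),
      (ext v w ∘ fun i => if i < m then i else i + k) = ext v (w ∘ Fin.castAdd k) := by
    intro v w
    funext i
    by_cases hi : i < m
    · simp only [Function.comp_apply, hi, if_true, ext]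
      rw [dif_pos (by omega), dif_pos trivial]
      rfl
    · simp only [Function.comp_apply, hi, if_false, ext]
      rw [dif_neg (by omega), dif_neg not_false]
  have hL : ∀ (s : ℕ → ℕ → Prop) (v : ℕ) (w : Fin (m + k) → ℕ),
      (∀ q ∈ L, q.sat B s v (ext v w)) ↔
        ∀ j : Fin m, w (Fin.castAdd k j) = w (Fin.natAdd m (u j)) := by
    intro s v w
    simp only [L, List.mem_map, List.mem_finRange, true_and, forall_exists_index,
      forall_apply_eq_imp_iff, Q.sat, heb]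
    refine forall_congr' fun j => ?_
    simp only [ext]
    rw [dif_pos (by omega), dif_pos (by omega)]
    rfl
  refine ⟨χ', fun s v hv z hz => ?_⟩
  rw [h2 s v hv z hz]
  constructor
  · rintro ⟨w, hw, hwq, hwz⟩
    rw [sat_foldr, hL, h1, hext] at hwq
    have e : w ∘ Fin.castAdd k = z ∘ u := by
      funext j
      rw [← hwz]
      exact hwq.1 j
    rw [← e]
    exact hwq.2
  · intro hχ
    refine ⟨Fin.append (z ∘ u) z, fun i => ?_, ?_, ?_⟩
    · refine Fin.addCases (fun i => ?_) (fun i => ?_) i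
      · rw [Fin.append_left]
        exact hz _
      · rw [Fin.append_right]
        exact hz _
    · rw [sat_foldr, hL, h1, hext]
      refine ⟨fun j => by rw [Fin.append_left, Fin.append_right]; rfl, ?_⟩
      have e : Fin.append (z ∘ u) z ∘ Fin.castAdd k = z ∘ u := by
        funext j
        rw [Function.comp_apply, Fin.append_left]
      rw [e]
      exact hχ
    · funext j
      rw [Function.comp_apply, Fin.append_right]

theorem sameTp_comp (hQ : QA) (hB : BLaws B) {k m : ℕ} (u : Fin m → Fin k) {a b : ℕ}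
    {c d : Fin k → ℕ} (ha : s a a) (hb : s b b) (hc : ∀ i, s a (c i)) (hd : ∀ i, s b (d i))
    (h : SameTp B s a c b d) : SameTp B s a (c ∘ u) b (d ∘ u) := by
  intro χ
  obtain ⟨χ', h'⟩ := reidx hQ hB k m u χ
  rw [← h' s a ha c hc, ← h' s b hb d hd]
  exact h χ'

theorem sub (hQ : QA) (hB : BLaws B) (v : ℕ) (hv : s v v) (k m : ℕ) (u : Fin m → Fin k)
    (c : Fin k → ℕ) (hc : ∀ i, s v (c i)) (h : Isol B s v c) : Isol B s v (c ∘ u) := by
  obtain ⟨τ, hτ, hi⟩ := h
  obtain ⟨τ', h'⟩ := hQ.proj S B hB m k u τ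
  refine ⟨τ', (h' s v hv (c ∘ u) (fun i => hc _)).2 ⟨c, hc, hτ, rfl⟩, fun z hz hzτ => ?_⟩
  obtain ⟨z', hz', hz'τ, rfl⟩ := (h' s v hv z hz).1 hzτ
  exact sameTp_comp hQ hB u hv hv hz' hc (hi z' hz' hz'τ)

/-- one step of the back-and-forth -/
theorem forth (hQ : QA) (hB : BLaws B) (a b : ℕ) (ha : s a a) (hb : s b b)
    (h : SameTp B s (k := 0) a Fin.elim0 b Fin.elim0) (hA : Atomic B s a) (k : ℕ)
    (c d : Fin k → ℕ) (hc : ∀ i, s a (c i)) (hd : ∀ i, s b (d i)) (hcd : SameTp B s a c b d)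
    (x : ℕ) (hx : s a x) : ∃ y, s b y ∧
      SameTp B s a (Fin.cons x c : Fin (k + 1) → ℕ) b (Fin.cons y d : Fin (k + 1) → ℕ) := by
  have hxc : ∀ i, s a ((Fin.cons x c : Fin (k + 1) → ℕ) i) := by
    intro i
    refine Fin.cases ?_ (fun j => ?_) i
    · simpa using hx
    · simpa using hc j
  obtain ⟨τ, hτ, hi⟩ := hA (k + 1) (Fin.cons x c) hxc
  obtain ⟨τ', h'⟩ := hQ.proj S B hB k (k + 1) Fin.succ τ
  have h1 := (h' s a ha c hc).2 ⟨Fin.cons x c, hxc, hτ, by funext j; simp⟩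
  obtain ⟨z, hz, hzτ, hzd⟩ := (h' s b hb d hd).1 ((hcd τ').1 h1)
  have e : (Fin.cons (z 0) d : Fin (k + 1) → ℕ) = z := by
    funext i
    refine Fin.cases ?_ (fun j => ?_) i
    · simp
    · rw [Fin.cons_succ, ← hzd]
      rfl
  refine ⟨z 0, hz 0, ?_⟩
  rw [e]
  exact (iso hQ hB a b ha hb h (k + 1) _ z τ hz hi hzτ).1

theorem cone (hQ : QA) (hB : BLaws B) (a b : ℕ) (ha : s a a) (hb : s b b)
    (h : SameTp B s (k := 0) a Fin.elim0 b Fin.elim0) (hA : Atomic B s a) (hA' : Atomic B s b) :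
    ConeIso s a b := by
  let P : List ({x // s a x} × {y // s b y}) → Prop := fun l =>
    SameTp B s a (fun i : Fin l.length => ((l.get i).1 : ℕ)) b (fun i => ((l.get i).2 : ℕ))
  refine backForth P (fun x y => s x.1 y.1) (fun x y => s x.1 y.1) ?_ ?_ ?_ ?_ ?_
  · have e1 : (fun i : Fin ([] : List ({x // s a x} × {y // s b y})).length =>
        ((([] : List ({x // s a x} × {y // s b y})).get i).1 : ℕ)) = Fin.elim0 := by
      funext i
      exact i.elim0
    have e2 : (fun i : Fin ([] : List ({x // s a x} × {y // s b y})).length =>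
        ((([] : List ({x // s a x} × {y // s b y})).get i).2 : ℕ)) = Fin.elim0 := by
      funext i
      exact i.elim0
    show SameTp B s a _ b _
    rw [e1, e2]
    exact h
  · intro l hl x
    obtain ⟨y, hy, hxy⟩ := forth hQ hB a b ha hb h hA l.length _ _ (fun i => (l.get i).1.2)
      (fun i => (l.get i).2.2) hl x.1 x.2
    refine ⟨⟨y, hy⟩, ?_⟩
    have e1 : (fun i : Fin ((x, (⟨y, hy⟩ : {y // s b y})) :: l).length =>
        ((((x, (⟨y, hy⟩ : {y // s b y})) :: l).get i).1 : ℕ)) =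
        (Fin.cons x.1 (fun i => ((l.get i).1 : ℕ)) : Fin (l.length + 1) → ℕ) := by
      funext i
      refine Fin.cases ?_ (fun j => ?_) i
      · rfl
      · rfl
    have e2 : (fun i : Fin ((x, (⟨y, hy⟩ : {y // s b y})) :: l).length =>
        ((((x, (⟨y, hy⟩ : {y // s b y})) :: l).get i).2 : ℕ)) =
        (Fin.cons y (fun i => ((l.get i).2 : ℕ)) : Fin (l.length + 1) → ℕ) := by
      funext i
      refine Fin.cases ?_ (fun j => ?_) i
      · rfl
      · rfl
    show SameTp B s a _ b _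
    rw [e1, e2]
    exact hxy
  · intro l hl y
    obtain ⟨x, hx, hxy⟩ := forth hQ hB b a hb ha (SameTp.symm h) hA' l.length _ _
      (fun i => (l.get i).2.2) (fun i => (l.get i).1.2) (SameTp.symm hl) y.1 y.2
    refine ⟨⟨x, hx⟩, ?_⟩
    have e1 : (fun i : Fin (((⟨x, hx⟩ : {x // s a x}), y) :: l).length =>
        (((((⟨x, hx⟩ : {x // s a x}), y) :: l).get i).1 : ℕ)) =
        (Fin.cons x (fun i => ((l.get i).1 : ℕ)) : Fin (l.length + 1) → ℕ) := by
      funext i
      refine Fin.cases ?_ (fun j => ?_) i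
      · rfl
      · rfl
    have e2 : (fun i : Fin (((⟨x, hx⟩ : {x // s a x}), y) :: l).length =>
        (((((⟨x, hx⟩ : {x // s a x}), y) :: l).get i).2 : ℕ)) =
        (Fin.cons y.1 (fun i => ((l.get i).2 : ℕ)) : Fin (l.length + 1) → ℕ) := by
      funext i
      refine Fin.cases ?_ (fun j => ?_) i
      · rfl
      · rfl
    show SameTp B s a _ b _
    rw [e1, e2]
    exact SameTp.symm hxy
  · intro l hl p hp q hq
    obtain ⟨i, rfl⟩ := List.mem_iff_get.1 hp
    obtain ⟨j, rfl⟩ := List.mem_iff_get.1 hq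
    obtain ⟨e, he⟩ := hB.eq i.1 j.1
    have h1 := hl (Q.base e)
    simp only [Q.sat, he, ext, i.2, j.2, dif_pos] at h1
    rw [Subtype.ext_iff, Subtype.ext_iff]
    exact h1
  · intro l hl p hp q hq
    obtain ⟨i, rfl⟩ := List.mem_iff_get.1 hp
    obtain ⟨j, rfl⟩ := List.mem_iff_get.1 hq
    obtain ⟨e, he⟩ := hB.le i.1 j.1
    have h1 := hl (Q.base e)
    simp only [Q.sat, he, ext, i.2, j.2, dif_pos] at h1
    exact h1

theorem qb : QB_stmt := fun hQ =>
  { count := hQ.count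
    proj := hQ.proj
    tr := fun _ _ hB _ a b ha hb h k τ hc => tr hQ hB a b ha hb h k τ hc
    iso := fun _ _ hB _ a b ha hb h k c d τ _ hd _ hi hdτ =>
      iso hQ hB a b ha hb h k c d τ hd hi hdτ
    sub := fun _ _ hB _ v hv k m u c hc h => sub hQ hB v hv k m u c hc h
    cone := fun _ _ hB _ a b ha hb h hA hA' => cone hQ hB a b ha hb h hA hA' }

end Pool.Agent.W989.SR.QB
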