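import Mathlib
import Pool.Agent.W889.SR.Stm

set_option autoImplicit false

namespace Pool.Agent.W989.SR.SW

open Pool.Agent.W889.SR

variable {s : ℕ → ℕ → Prop}

theorem coneIso_trans {a b c : ℕ} (h : ConeIso s a b) (h' : ConeIso s b c) : ConeIso s a c := by
  obtain ⟨g, hg⟩ := h
  obtain ⟨g', hg'⟩ := h'
  exact ⟨g.trans g', fun x y => (hg x y).trans (hg' _ _)⟩

theorem coneIso_aut (g : s ≃r s) (x : ℕ) : ConeIso s (g x) x := by
  refine ⟨⟨fun y => ⟨g.symm y.1, ?_⟩, fun y => ⟨g y.1, ?_⟩, fun y => ?_, fun y => ?_⟩,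
    fun y z => ?_⟩
  · have := y.2
    rw [← g.symm.map_rel_iff] at this
    simpa using this
  · exact g.map_rel_iff.2 y.2
  · exact Subtype.ext (by simp)
  · exact Subtype.ext (by simp)
  · exact (g.symm.map_rel_iff).symm

theorem swap (hs : IsTree s) (c c' : ℕ) (hne : c ≠ c')
    (hp : ∀ x, (s x c ∧ x ≠ c) ↔ (s x c' ∧ x ≠ c')) (hi : ConeIso s c c') :
    ∃ h : s ≃r s, h c = c' ∧ ∀ x, ¬ s c x → ¬ s c' x → h x = x := by
  classical
  obtain ⟨g, hg⟩ := hi
  have hgc : g ⟨c, hs.refl c⟩ = ⟨c', hs.refl c'⟩ := by
    apply Subtype.ext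
    apply hs.antisymm
    · have := (hg ⟨c, hs.refl c⟩ (g.symm ⟨c', hs.refl c'⟩)).1 (g.symm ⟨c', hs.refl c'⟩).2
      rwa [Equiv.apply_symm_apply] at this
    · exact (g ⟨c, hs.refl c⟩).2
  have hinc : ∀ x, s c x → s c' x → False := by
    intro x h1 h2
    rcases hs.chain x c c' h1 h2 with h | h
    · exact ((hp c).2 ⟨h, hne⟩).2 rfl
    · exact ((hp c').1 ⟨h, hne.symm⟩).2 rfl
  let h : ℕ → ℕ := fun x => if hx : s c x then (g ⟨x, hx⟩).1 else
    if hx' : s c' x then (g.symm ⟨x, hx'⟩).1 else x
  have h1 : ∀ x (hx : s c x), h x = (g ⟨x, hx⟩).1 := fun x hx => by simp only [h, dif_pos hx]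
  have h2 : ∀ x (hx : s c' x), h x = (g.symm ⟨x, hx⟩).1 := fun x hx => by
    have : ¬ s c x := fun h' => hinc x h' hx
    simp only [h, dif_neg this, dif_pos hx]
  have h3 : ∀ x, ¬ s c x → ¬ s c' x → h x = x := fun x hx hx' => by
    simp only [h, dif_neg hx, dif_neg hx']
  have hinv : ∀ x, h (h x) = x := by
    intro x
    by_cases hx : s c x
    · rw [h1 x hx, h2 _ (g ⟨x, hx⟩).2]
      simp
    · by_cases hx' : s c' x
      · rw [h2 x hx', h1 _ (g.symm ⟨x, hx'⟩).2]
        simp
      · rw [h3 x hx hx', h3 x hx hx']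
  have hmono : ∀ x y, s x y → s (h x) (h y) := by
    intro x y hxy
    by_cases hx : s c x
    · have hy : s c y := hs.trans _ _ _ hx hxy
      rw [h1 x hx, h1 y hy]
      exact (hg _ _).1 hxy
    · by_cases hx' : s c' x
      · have hy : s c' y := hs.trans _ _ _ hx' hxy
        rw [h2 x hx', h2 y hy, hg]
        simpa using hxy
      · rw [h3 x hx hx']
        by_cases hy : s c y
        · rw [h1 y hy]
          rcases hs.chain y x c hxy hy with h' | h'
          · have hxc : x ≠ c := fun e => hx (e ▸ hs.refl c)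
            exact hs.trans _ _ _ ((hp x).1 ⟨h', hxc⟩).1 (g ⟨y, hy⟩).2
          · exact absurd h' hx
        · by_cases hy' : s c' y
          · rw [h2 y hy']
            rcases hs.chain y x c' hxy hy' with h' | h'
            · have hxc : x ≠ c' := fun e => hx' (e ▸ hs.refl c')
              exact hs.trans _ _ _ ((hp x).2 ⟨h', hxc⟩).1 (g.symm ⟨y, hy'⟩).2
            · exact absurd h' hx'
          · rw [h3 y hy hy']
            exact hxy
  refine ⟨⟨⟨h, h, hinv, hinv⟩, ?_⟩, ?_, fun x hx hx' => h3 x hx hx'⟩
  · intro x y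
    constructor
    · intro hxy
      have := hmono _ _ hxy
      simpa only [Equiv.coe_fn_mk, hinv] using this
    · exact fun hxy => hmono _ _ hxy
  · show h c = c'
    rw [h1 c (hs.refl c), hgc]

theorem sw : Pool.Agent.W889.SR.SW := by
  intro s hs n F F' hF hqf hpre hpre' hiso
  have key : ∀ m ≤ n, ∃ g : s ≃r s, ∀ i : Fin n, i.1 < m → g (F i) = F' i := by
    intro m
    induction m with
    | zero => exact fun _ => ⟨RelIso.refl s, fun i hi => by omega⟩
    | succ m ih =>
      intro hm
      obtain ⟨g, hg⟩ := ih (by omega)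
      let i0 : Fin n := ⟨m, by omega⟩
      by_cases hc : g (F i0) = F' i0
      · refine ⟨g, fun i hi => ?_⟩
        rcases Nat.lt_succ_iff_lt_or_eq.1 hi with h | h
        · exact hg i h
        · have : i = i0 := Fin.ext h
          rw [this]
          exact hc
      · have hp : ∀ x, (s x (g (F i0)) ∧ x ≠ g (F i0)) ↔ (s x (F' i0) ∧ x ≠ F' i0) := by
          intro x
          constructor
          · rintro ⟨h1, h2⟩
            have h3 : s (g.symm x) (F i0) := by
              rw [← g.map_rel_iff]
              simpa using h1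
            obtain ⟨j, hj, hjx⟩ := hpre i0 _ h3
            have hji : j ≠ i0 := by
              rintro rfl
              apply h2
              rw [hjx]
              simp
            have hlt : j.1 < m := lt_of_le_of_ne hj (fun e => hji (Fin.ext e))
            have hx : x = F' j := by
              rw [← hg j hlt, hjx]
              simp
            rw [hx]
            rw [← hjx] at h3
            exact ⟨(hqf.1 j i0).1 h3, fun e => hji (hF ((hqf.2 j i0).2 e))⟩
          · rintro ⟨h1, h2⟩
            obtain ⟨j, hj, rfl⟩ := hpre' i0 x h1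
            have hji : j ≠ i0 := by
              rintro rfl
              exact h2 rfl
            have hlt : j.1 < m := lt_of_le_of_ne hj (fun e => hji (Fin.ext e))
            rw [← hg j hlt]
            exact ⟨g.map_rel_iff.2 ((hqf.1 j i0).2 h1), fun e => hji (hF (g.injective e))⟩
        obtain ⟨h, hh, hfix⟩ := swap hs (g (F i0)) (F' i0) hc hp
          (coneIso_trans (coneIso_aut g (F i0)) (hiso i0))
        refine ⟨g.trans h, fun i hi => ?_⟩
        rcases Nat.lt_succ_iff_lt_or_eq.1 hi with hlt | heq
        · rw [RelIso.trans_apply, hg i hlt]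
          apply hfix
          · intro h'
            rw [← hg i hlt, g.map_rel_iff] at h'
            obtain ⟨j, hj, hji⟩ := hpre i _ h'
            have := hF hji
            have h4 : j.1 ≤ i.1 := hj
            rw [this] at h4
            simp only [i0] at h4
            omega
          · intro h'
            obtain ⟨j, hj, hji⟩ := hpre' i _ h'
            have := hF ((hqf.2 j i0).2 hji)
            have h4 : j.1 ≤ i.1 := hj
            rw [this] at h4
            simp only [i0] at h4
            omega
        · have : i = i0 := Fin.ext heq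
          rw [this, RelIso.trans_apply]
          exact hh
  obtain ⟨g, hg⟩ := key n le_rfl
  exact ⟨g, fun i => hg i i.2⟩

end Pool.Agent.W989.SR.SW
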